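import Mathlib
import Pool.Agent.Lib.MP_2d3ccd_co.Props

/-!
# Semi-transitive `k`-chromatic graphs of girth `k`

For every `k ≥ 4` we construct a finite semi-transitive graph with chromatic number `k` and girth
`k` that is moreover `k`-critical: every proper subgraph is `(k-1)`-colourable.
-/

open Finset

namespace Pool.Agent.Results.MP_2d3ccd_co.CriticalGirthK

open SimpleGraph

/-- The relation `R` (read `R u v` as `u → v`) is a semi-transitive orientation of `G`:
every edge is oriented in exactly one direction, there is no directed cycle, and whenever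
`v 0 → v 1 → ⋯ → v t` (`t ≥ 2`) is a directed path with `v 0 → v t`, all `v i → v j` with
`0 ≤ i < j ≤ t` are present. (Under acyclicity directed walks are directed paths.) -/
structure IsSemiTransitiveOrientation {V : Type} (G : SimpleGraph V) (R : V → V → Prop) :
    Prop where
  adj_iff : ∀ u v, G.Adj u v ↔ (R u v ∨ R v u)
  asymm : ∀ u v, R u v → ¬ R v u
  acyclic : ∀ v, ¬ Relation.TransGen R v v
  shortcut_free : ∀ (t : ℕ) (v : ℕ → V), 2 ≤ t → (∀ i, i < t → R (v i) (v (i + 1))) →
    R (v 0) (v t) → ∀ i j, i < j → j ≤ t → R (v i) (v j)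

/-- A graph is semi-transitive if it admits a semi-transitive orientation. -/
def SemiTransitive {V : Type} (G : SimpleGraph V) : Prop :=
  ∃ R : V → V → Prop, IsSemiTransitiveOrientation G R

open Pool.Agent.Lib.MP_2d3ccd_co

/-- Orienting along a height function without shortcuts is semi-transitive. -/
theorem semiTransitive_of_height {V : Type} (G : SimpleGraph V) (h : V → ℕ)
    (hne : ∀ u v, G.Adj u v → h u ≠ h v)
    (hns : ∀ (t : ℕ) (v : ℕ → V), 2 ≤ t →
      (∀ i, i < t → G.Adj (v i) (v (i + 1)) ∧ h (v i) < h (v (i + 1))) → ¬ G.Adj (v 0) (v t)) :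
    SemiTransitive G := by
  refine ⟨fun u v => G.Adj u v ∧ h u < h v, ?_, ?_, ?_, ?_⟩
  · intro u v
    constructor
    · intro huv
      rcases lt_or_gt_of_ne (hne u v huv) with h1 | h1
      · exact Or.inl ⟨huv, h1⟩
      · exact Or.inr ⟨huv.symm, h1⟩
    · rintro (h1 | h1)
      · exact h1.1
      · exact h1.1.symm
  · intro u v h1 h2
    exact absurd h1.2 (not_lt.2 h2.2.le)
  · intro v hv
    have key : ∀ a b, Relation.TransGen (fun u v => G.Adj u v ∧ h u < h v) a b → h a < h b := by
      intro a b hab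
      induction hab with
      | single h1 => exact h1.2
      | tail _ h1 ih => exact ih.trans h1.2
    exact lt_irrefl _ (key v v hv)
  · intro t v ht hv h0
    exact absurd h0.1 (hns t v ht hv)

/-- A colouring of `Fin k` with `k - 1` colours merging exactly the two given elements. -/
theorem exists_merge (k : ℕ) (i0 j0 : Fin k) (hij : i0 ≠ j0) :
    ∃ col : Fin k → Fin (k - 1), ∀ i j, i ≠ j → col i = col j → s(i, j) = s(i0, j0) := by
  classical
  have hcard : Fintype.card {x : Fin k // x ≠ j0} = k - 1 := by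
    rw [Fintype.card_subtype_compl, Fintype.card_fin, Fintype.card_subtype_eq]
  let e := Fintype.equivFinOfCardEq hcard
  refine ⟨fun x => if h : x = j0 then e ⟨i0, hij⟩ else e ⟨x, h⟩, ?_⟩
  intro i j hne heq
  by_cases hi : i = j0
  · subst hi
    have hj : j ≠ i := hne.symm
    simp only [dif_pos, dif_neg hj] at heq
    have := congrArg Subtype.val (e.injective heq)
    simp only at this
    rw [this, Sym2.eq_swap]
  · by_cases hj : j = j0
    · subst hj
      simp only [dif_pos, dif_neg hi] at heq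
      have := congrArg Subtype.val (e.injective heq)
      simp only at this
      rw [this]
    · simp only [dif_neg hi, dif_neg hj] at heq
      have := congrArg Subtype.val (e.injective heq)
      exact absurd this hne

/-- **Main theorem.** For every `k ≥ 4` there is a finite semi-transitive graph with chromatic
number `k` and girth `k`, which is moreover `k`-critical: all of its proper subgraphs are
`(k-1)`-colourable. -/
theorem result : ∀ k : ℕ, 4 ≤ k →
    ∃ (V : Type) (_ : Fintype V) (G : SimpleGraph V),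
      SemiTransitive G ∧ G.chromaticNumber = (k : ℕ∞) ∧ G.girth = k ∧
      ∀ K : G.Subgraph, K ≠ ⊤ → K.coe.Colorable (k - 1) := by
  classical
  intro k hk
  obtain ⟨n, H, w, x0, c, hadj, hHc, hg, hcw, hc⟩ := exists_gadget (k - 1) k (by omega)
  set B := big k H w x0 with hB
  -- a minimal non-`(k-1)`-colourable spanning subgraph
  obtain ⟨G1, ⟨hG1B, hG1c⟩, hmin⟩ := WellFounded.has_min
    (wellFounded_lt : WellFounded
      (α := SimpleGraph (Fin k ⊕ ((Fin k × Fin k) × Fin n))) (· < ·))
    {G' | G' ≤ B ∧ ¬ G'.Colorable (k - 1)} ⟨B, le_rfl, big_not_colorable hHc (by omega)⟩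
  -- it contains all edges of the cycle
  have hcycle : ∀ i j : Fin k, (cycleGraph k).Adj i j → G1.Adj (Sum.inl i) (Sum.inl j) := by
    intro i0 j0 hij0
    by_contra hnot
    apply hG1c
    obtain ⟨col, hcol⟩ := exists_merge k i0 j0 hij0.ne
    obtain ⟨C, hC1, hC2⟩ := exists_extension (k := k) (H := H) (w := w) (x0 := x0) c hcw hc
      (le_refl (k - 1)) col (by
        intro i j hch heq
        have := hcol i j hch.1.ne heq
        rw [Sym2.eq_iff] at this
        rcases this with ⟨rfl, rfl⟩ | ⟨rfl, rfl⟩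
        · exact hch.2 hij0
        · exact hch.2 hij0.symm)
    refine ⟨Coloring.mk C ?_⟩
    intro a b hab
    rcases hC2 a b (hG1B hab) with ⟨i, j, hij, rfl, rfl⟩ | h
    · rw [hC1, hC1]
      intro heq
      have := hcol i j hij.ne heq
      rw [Sym2.eq_iff] at this
      rcases this with ⟨rfl, rfl⟩ | ⟨rfl, rfl⟩
      · exact hnot hab
      · exact hnot hab.symm
    · exact h
  -- remove isolated vertices
  let V1 : Type := {v : Fin k ⊕ ((Fin k × Fin k) × Fin n) // ∃ u, G1.Adj v u}
  let G : SimpleGraph V1 := G1.comap Subtype.val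
  have hGB : ∀ a b : V1, G.Adj a b → B.Adj a.1 b.1 := fun a b h => hG1B h
  have hcyc' : cycleGraph k ⊑ G := by
    have hnb : ∀ i : Fin k, ∃ j, (cycleGraph k).Adj i j := by
      intro i
      obtain ⟨m, rfl⟩ : ∃ m, k = m + 2 := ⟨k - 2, by omega⟩
      exact ⟨i + 1, by rw [cycleGraph_adj]; right; simp⟩
    refine ⟨⟨⟨fun i => ⟨Sum.inl i, ?_⟩, ?_⟩, ?_⟩⟩
    · obtain ⟨j, hj⟩ := hnb i
      exact ⟨_, hcycle i j hj⟩
    · intro i j hij
      exact hcycle i j hij
    · intro i j hij
      have := congrArg Subtype.val hij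
      exact Sum.inl_injective this
  have hegirth : G.egirth = k := by
    apply le_antisymm
    · obtain ⟨v, p, hp, hlen⟩ := (cycleGraph_isContained_iff (by omega)).1 hcyc'
      rw [← hlen]
      exact egirth_le_length hp
    · have h1 : G ⊑ B := ⟨⟨⟨Subtype.val, fun {a b} h => hGB a b h⟩, Subtype.val_injective⟩⟩
      exact (le_egirth_big (by omega) hadj hg).trans h1.egirth_le
  have hnc : ¬ G.Colorable (k - 1) := by
    rintro ⟨C⟩
    apply hG1c
    have hpos : 0 < k - 1 := by omega
    refine ⟨Coloring.mk (fun v => if h : ∃ u, G1.Adj v u then C ⟨v, h⟩ else ⟨0, hpos⟩) ?_⟩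
    intro a b hab
    have ha : ∃ u, G1.Adj a u := ⟨b, hab⟩
    have hb : ∃ u, G1.Adj b u := ⟨a, hab.symm⟩
    rw [dif_pos ha, dif_pos hb]
    exact C.valid (show G.Adj ⟨a, ha⟩ ⟨b, hb⟩ from hab)
  have hcolk : G.Colorable k := by
    obtain ⟨C, hC1, hC2⟩ := exists_extension (k := k) (H := H) (w := w) (x0 := x0) c hcw hc
      (show k - 1 ≤ k by omega) id (fun i j hch => hch.1.ne)
    refine ⟨Coloring.mk (fun v => C v.1) ?_⟩
    intro a b hab
    rcases hC2 a.1 b.1 (hGB a b hab) with ⟨i, j, hij, h1, h2⟩ | h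
    · rw [h1, h2, hC1, hC1]; exact hij.ne
    · exact h
  refine ⟨V1, inferInstance, G, ?_, ?_, ?_, ?_⟩
  · -- semi-transitivity
    refine semiTransitive_of_height G (fun v => ht k (by omega) c v.1) ?_ ?_
    · intro u v huv
      exact ht_ne (by omega) c hc u.1 v.1 (hGB u v huv)
    · intro t v ht2 hv h0t
      exact no_shortcut hk (by omega) c hadj hg t ht2 (fun i => (v i).1)
        (fun i hi => ⟨hGB _ _ (hv i hi).1, (hv i hi).2⟩) (hGB _ _ h0t)
  · obtain ⟨m, rfl⟩ : ∃ m, k = m + 1 := ⟨k - 1, by omega⟩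
    have h1 : G.chromaticNumber ≤ ((m + 1 : ℕ) : ℕ∞) := hcolk.chromaticNumber_le
    have h2 : ¬ G.chromaticNumber ≤ ((m : ℕ) : ℕ∞) := by
      rw [chromaticNumber_le_iff_colorable]
      simpa using hnc
    apply le_antisymm h1
    rw [not_le] at h2
    have := Order.add_one_le_of_lt h2
    exact_mod_cast this
  · rw [girth, hegirth]
    rfl
  · -- criticality
    intro K hK
    let K' : SimpleGraph (Fin k ⊕ ((Fin k × Fin k) × Fin n)) :=
      { Adj := fun a b => ∃ (ha : ∃ u, G1.Adj a u) (hb : ∃ u, G1.Adj b u),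
          K.Adj ⟨a, ha⟩ ⟨b, hb⟩
        symm := ⟨fun a b ⟨ha, hb, h⟩ => ⟨hb, ha, K.adj_symm h⟩⟩
        loopless := ⟨fun a ⟨ha, hb, h⟩ => (K.adj_sub h).ne rfl⟩ }
    have hK'le : K' ≤ G1 := by
      rintro a b ⟨ha, hb, h⟩
      exact K.adj_sub h
    have hK'ne : K' ≠ G1 := by
      intro heq
      apply hK
      have hadj' : ∀ a b : V1, G.Adj a b → K.Adj a b := by
        intro a b hab
        have : K'.Adj a.1 b.1 := by rw [heq]; exact hab
        obtain ⟨ha, hb, h⟩ := this
        exact h
      ext a b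
      · simp only [Subgraph.verts_top, Set.mem_univ, iff_true]
        obtain ⟨a, u, hu⟩ := a
        exact K.edge_vert (hadj' ⟨a, u, hu⟩ ⟨u, a, hu.symm⟩ hu)
      · simp only [Subgraph.top_adj]
        exact ⟨fun h => K.adj_sub h, fun h => hadj' a b h⟩
    have hK'col : K'.Colorable (k - 1) := by
      by_contra h
      exact hmin K' ⟨hK'le.trans hG1B, h⟩ (lt_of_le_of_ne hK'le hK'ne)
    obtain ⟨C⟩ := hK'col
    refine ⟨Coloring.mk (fun v => C v.1.1) ?_⟩
    intro a b hab
    exact C.valid (show K'.Adj a.1.1 b.1.1 from ⟨a.1.2, b.1.2, hab⟩)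

end Pool.Agent.Results.MP_2d3ccd_co.CriticalGirthK
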